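import Pool.Agent.H76.ND.Targets2

/-!
Module CHX of the board nd2 (MP_57ddd5_pr): properties of the lateral cut-off.
-/

open Filter

namespace Pool.Agent.H2.ND

open Pool.Agent.H99.NS Pool.Agent.H22.LPP Pool.Agent.H95.INS Pool.Agent.H76.ND
open Pool.Agent.H95.ND (Sml)

theorem pf_CHX : T_CHX := by
  intro c0 R hc0 hc1
  obtain ⟨n1, hn1⟩ : ∃ n1 : ℕ, n1 = max 1 ⌈R⌉₊ := ⟨_, rfl⟩
  have htd : Tendsto (fun N : ℕ => (N : ℝ) ^ (c0 / 50)) atTop atTop :=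
    (tendsto_rpow_atTop (by positivity)).comp tendsto_natCast_atTop_atTop
  obtain ⟨N0, hN0⟩ := (tendsto_atTop.1 htd ((64 : ℝ) ^ n1)).exists_forall_of_atTop
  refine ⟨N0, fun N a hN hNa => ?_⟩
  obtain ⟨y, hy⟩ : ∃ y : ℝ, y = (N : ℝ) ^ (c0 / 50) := ⟨_, rfl⟩
  have hy1 : (64 : ℝ) ^ n1 ≤ y := by rw [hy]; exact hN0 N hN
  have hy50 : y ^ 50 = (N : ℝ) ^ c0 := by
    rw [hy, ← Real.rpow_natCast, ← Real.rpow_mul (Nat.cast_nonneg N)]
    congr 1
    push_cast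
    ring
  rw [← hy50] at hNa
  have h64 : (64 : ℝ) ≤ y := by
    refine le_trans ?_ hy1
    calc (64 : ℝ) = 64 ^ 1 := by norm_num
      _ ≤ 64 ^ n1 := pow_le_pow_right₀ (by norm_num) (by rw [hn1]; exact le_max_left _ _)
  have hy1' : (1 : ℝ) ≤ y := by linarith
  have hn1a : n1 ≤ a := by
    have h1 : (64 : ℝ) ^ n1 ≤ 64 ^ a := by
      refine hy1.trans (le_trans ?_ hNa)
      calc y = y ^ 1 := by ring
        _ ≤ y ^ 50 := pow_le_pow_right₀ hy1' (by norm_num)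
    exact (pow_le_pow_iff_right₀ (by norm_num)).1 h1
  have hRn : R ≤ n1 := (Nat.le_ceil R).trans (by rw [hn1]; exact_mod_cast le_max_right _ _)
  have hX : Xn c0 N = ⌊y⌋ := by rw [hy]; rfl
  have hn1y : (n1 : ℝ) ≤ y := by
    have h1 : n1 ≤ 64 ^ n1 := (Nat.lt_pow_self (by norm_num)).le
    have h2 : (n1 : ℝ) ≤ 64 ^ n1 := by exact_mod_cast h1
    exact h2.trans hy1
  have hfl : ((Xn c0 N : ℤ) : ℝ) ≤ y := by rw [hX]; exact Int.floor_le y
  have hX64 : 64 ≤ Xn c0 N := by rw [hX]; exact Int.le_floor.2 (by exact_mod_cast h64)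
  have hX64' : (64 : ℝ) ≤ Xn c0 N := by exact_mod_cast hX64
  refine ⟨?_, ?_, ?_, by omega, ?_, ?_⟩
  · exact (le_max_left 1 ⌈R⌉₊).trans (hn1 ▸ hn1a)
  · exact hRn.trans (by exact_mod_cast hn1a)
  · have h1 : (n1 : ℤ) ≤ Xn c0 N := by rw [hX]; exact Int.le_floor.2 (by exact_mod_cast hn1y)
    exact hRn.trans (by exact_mod_cast h1)
  · have h1 : ((4 * Xn c0 N : ℤ) : ℝ) ^ 3 ≤ ((4 : ℝ) ^ a) ^ 3 := by
      have h2 : ((4 : ℝ) ^ a) ^ 3 = 64 ^ a := by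
        rw [← pow_mul, mul_comm, pow_mul]; norm_num
      rw [h2]
      refine le_trans ?_ hNa
      have h3 : ((4 * Xn c0 N : ℤ) : ℝ) ≤ y ^ 2 := by
        push_cast
        nlinarith
      calc ((4 * Xn c0 N : ℤ) : ℝ) ^ 3 ≤ (y ^ 2) ^ 3 :=
            pow_le_pow_left₀ (by push_cast; linarith) h3 3
        _ = y ^ 6 := by ring
        _ ≤ y ^ 50 := pow_le_pow_right₀ hy1' (by norm_num)
    have h2 := (pow_le_pow_iff_left₀ (by push_cast; linarith) (by positivity) (by norm_num)).1 h1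
    exact_mod_cast h2
  · unfold Sml
    have h1 : ((16 * Xn c0 N + 2 : ℤ) : ℝ) ^ 24 ≤ 64 ^ a := by
      refine le_trans ?_ hNa
      have h3 : ((16 * Xn c0 N + 2 : ℤ) : ℝ) ≤ y ^ 2 := by
        push_cast
        nlinarith
      calc ((16 * Xn c0 N + 2 : ℤ) : ℝ) ^ 24 ≤ (y ^ 2) ^ 24 :=
            pow_le_pow_left₀ (by push_cast; linarith) h3 24
        _ = y ^ 48 := by ring
        _ ≤ y ^ 50 := pow_le_pow_right₀ hy1' (by norm_num)
    exact_mod_cast h1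

end Pool.Agent.H2.ND
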