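import Pool.Agent.H76.ND.Targets

/-!
Module D3D of the board nd (MP_57ddd5_pr): dependence of the violation events.
-/

namespace Pool.Agent.H2.ND

open Pool.Agent.H99.NS Pool.Agent.H22.LPP Pool.Agent.H95.INS Pool.Agent.H76.ND

theorem lv_pos (i : ℕ) : 0 < lv i := by
  unfold lv
  positivity

theorem lv_mono {i j : ℕ} (h : i ≤ j) : lv i ≤ lv j := by
  unfold lv
  have : (64 : ℤ) ^ (i - 1) ≤ 64 ^ (j - 1) := pow_le_pow_right₀ (by norm_num) (by omega)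
  linarith

theorem VU_imp {q K0 : ℝ} {R V : ℤ} {j i : ℕ} {s t : ℤ} {ω ω' : Env}
    (h : ∀ x : Site, s < x.1 → x.1 ≤ t → cutE R ω x = cutE R ω' x)
    (hv : VU q K0 R V j i s t ω) : VU q K0 R V j i s t ω' := by
  obtain ⟨s', t', g, h1, h2, h3, h4, h5, h6, h7⟩ := hv
  refine ⟨s', t', g, h1, h2, h3, h4, h5, h6, ?_⟩
  rwa [← wt_congr (fun r hr1 hr2 => h (r, g r) (by simp only; omega) (by simp only; omega))]

theorem VL_imp {q K0 : ℝ} {Xc R V : ℤ} {j i : ℕ} {s t : ℤ} {ω ω' : Env}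
    (h : ∀ x : Site, s < x.1 → x.1 ≤ t → cutE R ω x = cutE R ω' x)
    (hv : VL q K0 Xc R V j i s t ω) : VL q K0 Xc R V j i s t ω' := by
  obtain ⟨x, y, h1, h2, h3, h4, h5⟩ := hv
  refine ⟨x, y, h1, h2, h3, h4, ?_⟩
  rwa [← T_congr_slab (fun z hz1 hz2 => h z hz1 hz2)]

theorem VI_imp {q K0 : ℝ} {R V : ℤ} {j a : ℕ} {ω ω' : Env}
    (h : ∀ x : Site, -lv a < x.1 → x.1 ≤ lv a → cutE R ω x = cutE R ω' x)
    (hv : VI q K0 R V j a ω) : VI q K0 R V j a ω' := by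
  obtain ⟨u, h1, h2, h3, h4⟩ := hv
  refine ⟨u, h1, h2, h3, ?_⟩
  rcases h4 with h4 | h4
  · left
    intro y hy1 hy2
    rw [← T_congr_slab (ω := cutE R ω) (fun z hz1 hz2 => h z hz1 (by
      omega))]
    exact h4 y hy1 hy2
  · right
    intro y hy1 hy2
    rw [← T_congr_slab (ω := cutE R ω) (fun z hz1 hz2 => h z (by
      omega) hz2)]
    exact h4 y hy1 hy2

theorem VV_imp {q K0 : ℝ} {Xc R V : ℤ} {a j i : ℕ} {ω ω' : Env}
    (h : ∀ x ∈ LS a i, cutE R ω x = cutE R ω' x)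
    (hv : VV q K0 Xc R V a j i ω) : VV q K0 Xc R V a j i ω' := by
  have hm : ∀ x : Site, -lv (i + 1) < x.1 → x.1 ≤ -lv i → cutE R ω x = cutE R ω' x :=
    fun x h1 h2 => h x (Or.inl ⟨h1, h2⟩)
  have hp : ∀ x : Site, lv i < x.1 → x.1 ≤ lv (i + 1) → cutE R ω x = cutE R ω' x :=
    fun x h1 h2 => h x (Or.inr (Or.inl ⟨h1, h2⟩))
  rcases hv with hv | hv | hv | hv | ⟨hi, hv⟩
  · exact Or.inl (VU_imp hm hv)
  · exact Or.inr (Or.inl (VU_imp hp hv))
  · exact Or.inr (Or.inr (Or.inl (VL_imp hm hv)))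
  · exact Or.inr (Or.inr (Or.inr (Or.inl (VL_imp hp hv))))
  · have hc : ∀ x : Site, -lv a < x.1 → x.1 ≤ lv a → cutE R ω x = cutE R ω' x :=
      fun x h1 h2 => h x (Or.inr (Or.inr ⟨hi, h1, h2⟩))
    refine Or.inr (Or.inr (Or.inr (Or.inr ⟨hi, ?_⟩)))
    rcases hv with hv | hv | hv
    · exact Or.inl (VU_imp hc hv)
    · exact Or.inr (Or.inl (VL_imp hc hv))
    · exact Or.inr (Or.inr (VI_imp hc hv))

theorem LS_disj {a i i' : ℕ} (hai : a ≤ i) (h : i < i') : Disjoint (LS a i) (LS a i') := by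
  rw [Set.disjoint_left]
  intro x hx hx'
  have h1 := lv_pos i
  have h2 := lv_pos a
  have h3 : lv i ≤ lv (i + 1) := lv_mono (by omega)
  have h4 : lv (i + 1) ≤ lv i' := lv_mono (by omega)
  have h5 : lv a ≤ lv i := lv_mono hai
  rcases hx with ⟨h6, h7⟩ | ⟨h6, h7⟩ | ⟨h6, h7, h8⟩ <;>
    rcases hx' with ⟨h9, h10⟩ | ⟨h9, h10⟩ | ⟨h9, h10, h11⟩ <;> omega

theorem pf_D3D : T_D3D := by
  intro q K0 Xc R V a j i ha hai
  refine ⟨?_, ?_, ?_⟩
  · intro ω ω' h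
    have hc : ∀ x ∈ LS a i, cutE R ω x = cutE R ω' x := by
      intro x hx
      unfold cutE
      by_cases hR : |x.2| < R
      · rw [if_pos hR, if_pos hR]
        exact h x ⟨hx, hR⟩
      · rw [if_neg hR, if_neg hR]
    exact propext ⟨VV_imp hc, VV_imp fun x hx => (hc x hx).symm⟩
  · refine Set.Finite.subset
      (Finset.finite_toSet (Finset.Icc (-lv (i + 1), -R) (lv (i + 1), R))) ?_
    rintro x ⟨hx, hR⟩
    have hR2 : |x.2| < R := hR
    rw [abs_lt] at hR2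
    have h1 := lv_pos i
    have h2 := lv_pos a
    have h3 : lv i ≤ lv (i + 1) := lv_mono (by omega)
    have h5 : lv a ≤ lv i := lv_mono hai
    have key : -lv (i + 1) ≤ x.1 ∧ x.1 ≤ lv (i + 1) := by
      rcases hx with ⟨h6, h7⟩ | ⟨h6, h7⟩ | ⟨h6, h7, h8⟩ <;> constructor <;> omega
    simp only [Finset.coe_Icc, Set.mem_Icc, Prod.le_def]
    exact ⟨⟨key.1, by omega⟩, ⟨key.2, by omega⟩⟩
  · intro i' hai' hne
    rcases lt_or_gt_of_ne hne with h | h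
    · exact (LS_disj hai' h).symm
    · exact LS_disj hai h

end Pool.Agent.H2.ND
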