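import Pool.Agent.H76.ND.Targets

/-!
Module GSI of the board nd (MP_57ddd5_pr): one-sided norms in both directions.
-/

namespace Pool.Agent.H2.ND

open Pool.Agent.H99.NS Pool.Agent.H22.LPP Pool.Agent.H95.INS Pool.Agent.H76.ND

theorem pf_GSI (h_REV : T_REV) : T_GSI := by
  intro q K0 Xc a I k ω haI h
  have ha := h a le_rfl haI
  refine ⟨⟨fun i h1 h2 => (h i h1 h2).um, fun i h1 h2 => (h i h1 h2).lm, ha.uc rfl, ha.lc rfl,
    ha.il rfl⟩, ⟨fun i h1 h2 => ?_, fun i h1 h2 => ?_, ?_, ?_, ha.ir rfl⟩⟩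
  · exact (h_REV ω q K0 Xc k i (lv i) (lv (i + 1))).1.2 (h i h1 h2).up
  · exact (h_REV ω q K0 Xc k i (lv i) (lv (i + 1))).2.2 (h i h1 h2).lp
  · have h3 := (h_REV ω q K0 Xc k a (-lv a) (lv a)).1.2 (ha.uc rfl)
    rwa [neg_neg] at h3
  · have h3 := (h_REV ω q K0 Xc k a (-lv a) (lv a)).2.2 (ha.lc rfl)
    rwa [neg_neg] at h3

end Pool.Agent.H2.ND
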