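import Pool.Agent.H76.ND.Targets2
import Pool.Agent.H2.PD.ASG

/-!
Module PGN of the board nd2 (MP_57ddd5_pr): probability of the norms of all labels.
-/

open MeasureTheory ProbabilityTheory
open scoped ENNReal

namespace Pool.Agent.H2.ND

open Pool.Agent.H99.NS Pool.Agent.H22.LPP Pool.Agent.H95.INS Pool.Agent.H76.ND
open Pool.Agent.H95.ND (Sml I_N tl str)

theorem pgn_geom (r : ℝ) (h0 : 0 < r) (h1 : r < 1) (i : ℕ) (J : Finset ℕ) :
    ∑ j ∈ J, r ^ ds i j ≤ 2 / (1 - r) := by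
  have h3 := Pool.Agent.H2.PD.sum_ds (fun n => r ^ n) (fun n => by positivity) i
    (J.sup fun j => ds j i) J (fun j hj => Finset.le_sup (f := fun j => ds j i) hj)
  have h4 : ∑ j ∈ J, r ^ ds i j = ∑ j ∈ J, r ^ ds j i :=
    Finset.sum_congr rfl fun j _ => by rw [Pool.Agent.H2.PD.ds_comm']
  rw [h4]
  refine h3.trans ?_
  obtain ⟨d, hd⟩ : ∃ d, d = J.sup fun j => ds j i := ⟨_, rfl⟩
  rw [← hd]
  have h5 : r ^ 0 + 2 * ∑ n ∈ Finset.range d, r ^ (n + 1) ≤
      2 * ∑ n ∈ Finset.range (d + 1), r ^ n := by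
    rw [Finset.sum_range_succ' (fun n => r ^ n) d]
    simp only [pow_zero]
    linarith
  refine h5.trans ?_
  rw [le_div_iff₀ (by linarith)]
  have h6 := mul_neg_geom_sum r (d + 1)
  have h7 : 0 < r ^ (d + 1) := by positivity
  nlinarith

theorem pf_PGN : T_PGN := by
  intro q hq0 hq1 hIN
  obtain ⟨C, c, s, hC, hc, hs, hN⟩ := hIN
  obtain ⟨t, ht⟩ : ∃ t : ℝ, t = (101 / 100 : ℝ) ^ s - 1 := ⟨_, rfl⟩
  have ht0 : 0 < t := by
    rw [ht]
    have := Real.one_lt_rpow (by norm_num : (1 : ℝ) < 101 / 100) hs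
    linarith
  obtain ⟨r, hr⟩ : ∃ r : ℝ, r = Real.exp (-(c * t)) := ⟨_, rfl⟩
  have hr0 : 0 < r := by rw [hr]; exact Real.exp_pos _
  have hr1 : r < 1 := by
    rw [hr]
    exact Real.exp_lt_one_iff.2 (by have := mul_pos hc ht0; linarith)
  have h1r : 0 < 1 - r := by linarith
  refine ⟨C * (2 / (1 - r)), c, s, by positivity, hc, hs, ?_⟩
  intro K0 Xc a I k hK0 hXc hSml ha hak
  have hsub : {ω | ¬ GN q K0 Xc a I k ω} ⊆
      ⋃ i ∈ Finset.Icc a I, {ω | ¬ Nm q K0 Xc a k i ω} := by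
    intro ω hω
    simp only [Set.mem_setOf_eq, GN] at hω
    push Not at hω
    obtain ⟨i, h1, h2, h3⟩ := hω
    simp only [Set.mem_iUnion, Finset.mem_Icc, Set.mem_setOf_eq]
    exact ⟨i, ⟨h1, h2⟩, h3⟩
  have hstr : ∀ d : ℕ, c * K0 ^ s + c * t * d ≤ c * str K0 d ^ s := by
    intro d
    have h1 : str K0 d ^ s = K0 ^ s * (1 + t) ^ d := by
      unfold str
      rw [Real.mul_rpow (by linarith) (by positivity), ht]
      congr 1
      rw [← Real.rpow_natCast, ← Real.rpow_mul (by norm_num), mul_comm, Real.rpow_mul (by norm_num),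
        Real.rpow_natCast]
      congr 1
      ring
    have h2 : 1 + (d : ℝ) * t ≤ (1 + t) ^ d := one_add_mul_le_pow (by linarith) d
    have h3 : 1 ≤ K0 ^ s := Real.one_le_rpow hK0 hs.le
    have h4 : K0 ^ s + t * d ≤ K0 ^ s * (1 + t) ^ d := by
      have h5 : 0 ≤ (d : ℝ) * t := by positivity
      nlinarith
    rw [h1]
    nlinarith
  have hterm : ∀ i ∈ Finset.Icc a I, PE q {ω | ¬ Nm q K0 Xc a k i ω} ≤
      ENNReal.ofReal (C * Real.exp (-(c * K0 ^ s)) * r ^ ds k i) := by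
    intro i hi
    rw [Finset.mem_Icc] at hi
    refine (hN K0 Xc a k i hK0 hXc hSml ha hi.1 hak).trans ?_
    unfold tl
    apply ENNReal.ofReal_le_ofReal
    rw [mul_assoc]
    refine mul_le_mul_of_nonneg_left ?_ hC.le
    rw [hr, ← Real.exp_nat_mul, ← Real.exp_add]
    apply Real.exp_le_exp.2
    have := hstr (ds k i)
    linarith
  calc PE q {ω | ¬ GN q K0 Xc a I k ω}
      ≤ PE q (⋃ i ∈ Finset.Icc a I, {ω | ¬ Nm q K0 Xc a k i ω}) := measure_mono hsub
    _ ≤ ∑ i ∈ Finset.Icc a I, PE q {ω | ¬ Nm q K0 Xc a k i ω} := measure_biUnion_finset_le _ _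
    _ ≤ ∑ i ∈ Finset.Icc a I, ENNReal.ofReal (C * Real.exp (-(c * K0 ^ s)) * r ^ ds k i) :=
        Finset.sum_le_sum hterm
    _ = ENNReal.ofReal (∑ i ∈ Finset.Icc a I, C * Real.exp (-(c * K0 ^ s)) * r ^ ds k i) := by
        rw [ENNReal.ofReal_sum_of_nonneg]
        intro i _
        positivity
    _ ≤ ENNReal.ofReal (C * (2 / (1 - r)) * Real.exp (-(c * K0 ^ s))) := by
        apply ENNReal.ofReal_le_ofReal
        rw [← Finset.mul_sum]
        have h1 := pgn_geom r hr0 hr1 k (Finset.Icc a I)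
        calc C * Real.exp (-(c * K0 ^ s)) * ∑ i ∈ Finset.Icc a I, r ^ ds k i
            ≤ C * Real.exp (-(c * K0 ^ s)) * (2 / (1 - r)) := by gcongr
          _ = _ := by ring

end Pool.Agent.H2.ND
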