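import Pool.Agent.H92.ND.TargetsB

/-!
# MP_70ba79_ag, board `ndc_modules`, row PSO: the sections at another node
-/

set_option autoImplicit false

namespace Pool.Agent.H2.ND

open MvPolynomial SC Pool.Agent.H27.LV Pool.Agent.H84.SM Pool.Agent.H84.ND Pool.Agent.H92.ND

section PSOaux

variable {k : Type} [Field k]

theorem PSO_xa (G : A3 k) (l : Fin 3) (R : Fin 3 → A3 k) (i : Fin 3) :
    ps G l R (xa i) = Polynomial.C (X i) := by
  unfold ps xa
  rw [aeval_X]
  rfl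

theorem PSO_ya (G : A3 k) (l : Fin 3) (R : Fin 3 → A3 k) (i : Fin 3) :
    ps G l R (ya i) = Polynomial.C (R i) +
      Polynomial.X * Polynomial.C (cr (Pi.single l 1) (g3 G) i) := by
  unfold ps ya
  rw [aeval_X]
  rfl

theorem PSO_ae (G : A3 k) (l : Fin 3) (R : Fin 3 → A3 k) (φ : A3 k) :
    ps G l R (aeval xa φ) = Polynomial.C φ := by
  induction φ using MvPolynomial.induction_on with
  | C a =>
    rw [← MvPolynomial.algebraMap_eq, AlgHom.commutes, AlgHom.commutes]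
    rfl
  | add p q hp hq => rw [map_add, map_add, hp, hq, Polynomial.C_add]
  | mul_X p i hp => rw [map_mul, map_mul, hp, aeval_X, PSO_xa, Polynomial.C_mul]

theorem PSO_dp (a b : Fin 3 → A3 k) : dp a b = a 0 * b 0 + a 1 * b 1 + a 2 * b 2 := by
  unfold dp
  rw [Fin.sum_univ_three]

theorem PSO_fA (G : A3 k) (l : Fin 3) (R : Fin 3 → A3 k) (D : A3 k)
    (h : dp R (g3 G) = D * G) : ps G l R (fA G) = Polynomial.C (D * G) := by
  have h1 : ps G l R (fA G) = ∑ i, Polynomial.C (g3 G i) * (Polynomial.C (R i) +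
      Polynomial.X * Polynomial.C (cr (Pi.single l 1) (g3 G) i)) := by
    unfold fA dp
    rw [map_sum]
    refine Finset.sum_congr rfl fun i _ => ?_
    rw [map_mul, PSO_ya]
    unfold gr
    rw [PSO_ae]
    rfl
  rw [h1, ← h, Fin.sum_univ_three, PSO_dp]
  have h2 : g3 G 0 * cr (Pi.single l 1) (g3 G) 0 + g3 G 1 * cr (Pi.single l 1) (g3 G) 1 +
      g3 G 2 * cr (Pi.single l 1) (g3 G) 2 = 0 := by
    have e1 : (1 : Fin 3) + 1 = 2 := rfl
    have e2 : (1 : Fin 3) + 2 = 0 := rfl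
    have e3 : (2 : Fin 3) + 1 = 0 := rfl
    have e4 : (2 : Fin 3) + 2 = 1 := rfl
    unfold cr
    rw [zero_add, zero_add, e1, e2, e3, e4]
    ring
  have h3 := congrArg Polynomial.C h2
  simp only [Polynomial.C_add, Polynomial.C_mul, Polynomial.C_0] at h3 ⊢
  linear_combination Polynomial.X * h3

theorem PSO_nv (G : A3 k) (d : ℕ) (l l' : Fin 3) (R : Fin 3 → A3 k) (D : A3 k)
    (h : dp R (g3 G) = D * G) : ps G l R (nv G d (ya l')) = Polynomial.C G *
      (Polynomial.C ((d : A3 k) * R l' - D * X l') +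
        Polynomial.X * Polynomial.C ((d : A3 k) * cr (Pi.single l 1) (g3 G) l')) := by
  have h1 : nv G d (ya l') = (d : A2 k) * gA G * ya l' - fA G * xa l' := by
    unfold nv
    conv_lhs => unfold ya
    rw [aeval_X]
    rfl
  rw [h1, map_sub, map_mul, map_mul, map_mul, map_natCast, PSO_fA G l R D h, PSO_xa, PSO_ya]
  unfold gA
  rw [PSO_ae]
  simp only [Polynomial.C_sub, Polynomial.C_mul, Polynomial.C_eq_natCast]
  ring

theorem PSO_euler (G : A3 k) (d : ℕ) (hG : G.IsHomogeneous d) :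
    X 0 * g3 G 0 + X 1 * g3 G 1 + X 2 * g3 G 2 = (d : A3 k) * G := by
  have h := hG.sum_X_mul_pderiv
  rw [Fin.sum_univ_three] at h
  unfold g3
  rw [h, nsmul_eq_mul]

theorem PSO_tri (G : A3 k) (d : ℕ) (hG : G.IsHomogeneous d) (R' : Fin 3 → A3 k) (D' : A3 k)
    (h : dp R' (g3 G) = D' * G) (l : Fin 3) :
    dt R' x3 (cr (Pi.single l 1) (g3 G)) = G * ((d : A3 k) * R' l - D' * X l) := by
  have h1 := PSO_euler G d hG
  rw [PSO_dp] at h
  have e1 : (1 : Fin 3) + 1 = 2 := rfl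
  have e2 : (1 : Fin 3) + 2 = 0 := rfl
  have e3 : (2 : Fin 3) + 1 = 0 := rfl
  have e4 : (2 : Fin 3) + 2 = 1 := rfl
  unfold dt
  rw [PSO_dp]
  unfold cr x3
  fin_cases l
  · simp [e1, e2, e3, e4]
    linear_combination R' 0 * h1 - X 0 * h
  · simp [e1, e2, e3, e4]
    linear_combination R' 1 * h1 - X 1 * h
  · simp [e1, e2, e3, e4]
    linear_combination R' 2 * h1 - X 2 * h

theorem PSO_sg (G : A3 k) (l : Fin 3) (R R' : Fin 3 → A3 k) :
    ps G l R (sgA R') = Polynomial.C (dt R' x3 R) +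
      Polynomial.X * Polynomial.C (dt R' x3 (cr (Pi.single l 1) (g3 G))) := by
  have e1 : (1 : Fin 3) + 1 = 2 := rfl
  have e2 : (1 : Fin 3) + 2 = 0 := rfl
  have e3 : (2 : Fin 3) + 1 = 0 := rfl
  have e4 : (2 : Fin 3) + 2 = 1 := rfl
  have h1 : ∀ i, ps G l R (aeval xa (R' i)) = Polynomial.C (R' i) := fun i => PSO_ae G l R _
  have h2 : ∀ i, ps G l R (xa i) = Polynomial.C (X i) := fun i => PSO_xa G l R i
  have h3 : ∀ i, ps G l R (ya i) = Polynomial.C (R i) +
      Polynomial.X * Polynomial.C (cr (Pi.single l 1) (g3 G) i) := fun i => PSO_ya G l R i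
  generalize cr (Pi.single l 1) (g3 G) = E at h3 ⊢
  unfold sgA dt dp cr x3
  simp only [Fin.sum_univ_three, e1, e2, e3, e4, zero_add, map_add, map_sub, map_mul, h1, h2, h3]
  ring

theorem PSO_pow (s : Fin 3 → k) (hC : ∀ f : A3 k, RP s (Polynomial.C f))
    (hm : ∀ P Q, RP s P → RP s Q → RP s (P * Q)) (P : Polynomial (A3 k)) (hP : RP s P) (n : ℕ) :
    RP s (P ^ n) := by
  induction n with
  | zero =>
    rw [pow_zero, ← Polynomial.C_1]
    exact hC 1
  | succ n ih =>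
    rw [pow_succ]
    exact hm _ _ ih hP

end PSOaux

theorem pf_PSO (hDTD : Pool.Agent.H92.ND.T_DTD) (hIVA : Pool.Agent.H92.ND.T_IVA)
    (hRPM : Pool.Agent.H92.ND.T_RPM) : Pool.Agent.H92.ND.T_PSO := by
  intro k _ _ G d hd hG hsq s s' ρ ρ' η R R' D D' hs hR hR' l l' h φ i j hji hh hhs
  obtain ⟨hs0, hsd⟩ := hs
  obtain ⟨hRm, hRC, hRX⟩ := hRPM k s
  obtain ⟨V, hV⟩ := hDTD k G d hd hG hsq R R' D D' hR.eq hR'.eq
  have hhI : h ∈ Is s := hIVA k s hs0 η h hh hhs
  have hgI : ∀ i, g3 G i ∈ Is s := fun i =>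
    hIVA k s hs0 (d - 1) _ (hG.pderiv) (hsd i)
  have hE : ∀ i, cr (Pi.single l 1) (g3 G) i ∈ Is s := by
    intro i
    unfold cr
    exact Ideal.sub_mem _ (Ideal.mul_mem_left _ _ (hgI _)) (Ideal.mul_mem_left _ _ (hgI _))
  set W : Polynomial (A3 k) := Polynomial.C ((d : A3 k) * R l' - D * X l') +
    Polynomial.X * Polynomial.C ((d : A3 k) * cr (Pi.single l 1) (g3 G) l') with hW
  set B : Polynomial (A3 k) := Polynomial.C (h * V) +
    Polynomial.X * Polynomial.C (h * ((d : A3 k) * R' l - D' * X l)) with hB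
  have hWR : RP s W := (hRm _ _ (hRC _) (hRX _ (Ideal.mul_mem_left _ _ (hE l')))).1
  have hBR : RP s B := (hRm _ _ (hRC _) (hRX _ (Ideal.mul_mem_right _ _ hhI))).1
  have hmul : ∀ P Q, RP s P → RP s Q → RP s (P * Q) := fun P Q hP hQ => (hRm P Q hP hQ).2
  refine ⟨Polynomial.C φ * B ^ j * W ^ (i - j), ?_, ?_⟩
  · have h1 : ps G l R (aeval xa h * sgA R') = Polynomial.C G * B := by
      rw [map_mul, PSO_ae, PSO_sg, hV, PSO_tri G d hG R' D' hR'.eq l, hB]
      simp only [Polynomial.C_mul]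
      ring
    have h2 : ps G l R (nv G d (ya l')) = Polynomial.C G * W := PSO_nv G d l l' R D hR.eq
    unfold Pool.Agent.H92.ND.el
    rw [map_mul, map_mul, map_pow, map_pow, h1, h2, PSO_ae]
    obtain ⟨m, rfl⟩ : ∃ m, i = j + m := ⟨i - j, by omega⟩
    rw [Nat.add_sub_cancel_left, pow_add, mul_pow, mul_pow]
    generalize B ^ j = b
    generalize W ^ m = w
    ring
  · exact hmul _ _ (hmul _ _ (hRC φ) (PSO_pow s hRC hmul B hBR j)) (PSO_pow s hRC hmul W hWR _)

end Pool.Agent.H2.ND
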