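import Pool.Agent.H76.ND.Targets

/-!
Module SLP of the board nd (MP_57ddd5_pr): the real inequality behind the slope recursion.
-/

namespace Pool.Agent.H2.ND

open Pool.Agent.H99.NS Pool.Agent.H22.LPP Pool.Agent.H95.INS Pool.Agent.H76.ND

theorem slp_core (c0 L X Y s : ℝ) (hc : 0 ≤ c0) (hL : 1 ≤ L) (hX : 0 ≤ X) (hY : 0 ≤ Y)
    (hs : s = 1 ∨ s = -1)
    (h : (X - s * Y) ^ 2 / (31501 / 1000) + Y ^ 2 / (1001 / 1000 * (65 / 128)) ≤
      X ^ 2 / (32 - 1 / 128) + (c0 * L ^ 2 + c0 * L * (X + Y))) :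
    Y ≤ 3 / 128 * X + (100 * c0 + 1) * L := by
  by_contra hcon
  rw [not_le] at hcon
  obtain ⟨u, hu⟩ : ∃ u, u = Y - 3 / 128 * X := ⟨_, rfl⟩
  have hY2 : Y = 3 / 128 * X + u := by linarith
  have hcL : 0 ≤ c0 * L := mul_nonneg hc (by linarith)
  have hu1 : (100 * c0 + 1) * L < u := by linarith
  have hu0 : 0 < u := by nlinarith
  have h1 : c0 * L ≤ u / 100 := by nlinarith
  have h2 : L ≤ u := by nlinarith
  have h3 : (X - Y) ^ 2 ≤ (X - s * Y) ^ 2 := by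
    rcases hs with hs | hs
    · rw [hs, one_mul]
    · rw [hs]
      nlinarith [mul_nonneg hX hY]
  have h4 : c0 * L ^ 2 ≤ u ^ 2 / 100 := by
    have h5 : c0 * L ^ 2 = (c0 * L) * L := by ring
    rw [h5]
    calc (c0 * L) * L ≤ (u / 100) * u := mul_le_mul h1 h2 (by linarith) (by positivity)
      _ = u ^ 2 / 100 := by ring
  have h6 : c0 * L * (X + Y) ≤ u / 100 * (X + Y) :=
    mul_le_mul_of_nonneg_right h1 (by linarith)
  have h7 : (X - Y) ^ 2 / (31501 / 1000) ≤ (X - s * Y) ^ 2 / (31501 / 1000) :=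
    div_le_div_of_nonneg_right h3 (by norm_num)
  have h8 : (X - Y) ^ 2 / (31501 / 1000) + Y ^ 2 / (1001 / 1000 * (65 / 128)) ≤
      X ^ 2 / (32 - 1 / 128) + (u ^ 2 / 100 + u / 100 * (X + Y)) := by linarith
  rw [hY2] at h8
  have h9 : 0 ≤ X * u := mul_nonneg hX hu0.le
  have h10 : 0 < u ^ 2 := by positivity
  have h11 : 0 ≤ X ^ 2 := by positivity
  norm_num at h8
  ring_nf at h8
  nlinarith

theorem pf_SLP : T_SLP := by
  intro q C₁ hq0 hq1 hC
  have hsg : 0 < sg q := by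
    unfold sg
    exact div_pos (Real.sqrt_pos.2 hq0) (by linarith)
  have hc0 : 0 ≤ 2 / sg q * C₁ := mul_nonneg (by positivity) hC
  refine ⟨100 * (2 / sg q * C₁) + 1, by linarith, ?_⟩
  intro K0 Θ X Y hK hT hX hY s hs h
  have hL : 1 ≤ K0 * Θ := by nlinarith
  have e : 2 / sg q * (C₁ * K0 ^ 2 * Θ ^ 2 + C₁ * K0 * Θ * (X + Y)) =
      (2 / sg q * C₁) * (K0 * Θ) ^ 2 + (2 / sg q * C₁) * (K0 * Θ) * (X + Y) := by ring
  rw [e] at h
  have := slp_core (2 / sg q * C₁) (K0 * Θ) X Y s hc0 hL hX hY hs h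
  rw [← mul_assoc] at this
  exact this

end Pool.Agent.H2.ND
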